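import Pool.Agent.W_MP_13ae32_ag.Reg
import Pool.Agent.W_MP_13ae32_ag.Copy

/-!
The Castelnuovo-Mumford regularity of the powers of the ideal generated by `Sym^{ab} U` in
`Sym^a (Sym^b U)`. The definitions are in `Pool/Agent/W_MP_13ae32_ag/Defs.lean`.
-/

open MvPolynomial Finset

namespace Pool.Agent.Results.MP_13ae32_ag.RegPowers

open Pool.Agent.W_MP_13ae32_ag

open scoped Pointwise in
theorem span_W0_pow (a b j : ℕ) :
    (Ideal.span (W0 a b : Set (MvPolynomial (Fin (b + 1)) ℂ))) ^ j =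
      Ideal.span (Set.range fun u : Fin j → ℂ => ∏ c, ff b (u c) ^ a) := by
  have h1 : Ideal.span (W0 a b : Set (MvPolynomial (Fin (b + 1)) ℂ)) =
      Ideal.span (Set.range fun u : ℂ => ff b u ^ a) := by
    apply le_antisymm
    · rw [Ideal.span_le]
      intro x hx
      have h2 : W0 a b ≤
          (Ideal.span (Set.range fun u : ℂ => ff b u ^ a)).restrictScalars ℂ := by
        rw [W0, Submodule.span_le]
        exact Ideal.subset_span
      exact h2 hx
    · apply Ideal.span_mono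
      rintro _ ⟨u, rfl⟩
      exact Submodule.subset_span ⟨u, rfl⟩
  rw [h1]
  have h2 : (Ideal.span (Set.range fun u : ℂ => ff b u ^ a)) ^ j =
      Ideal.span ((Set.range fun u : ℂ => ff b u ^ a) ^ j) := Submodule.span_pow _ j
  rw [h2]
  congr 1
  ext x
  rw [Set.mem_pow]
  constructor
  · rintro ⟨f, rfl⟩
    have : ∀ k, ∃ u, ff b u ^ a = f k := fun k => (f k).2
    choose u hu using this
    refine ⟨u, ?_⟩
    rw [List.prod_ofFn]
    simp only [hu]
  · rintro ⟨u, rfl⟩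
    refine ⟨fun k => ⟨ff b (u k) ^ a, u k, rfl⟩, ?_⟩
    rw [List.prod_ofFn]

/-- For all `a, b ≥ 1` there is exactly one subrepresentation `W` of `Sym^a (Sym^b U)` isomorphic
to `Sym^(ab) U`, and for `1 ≤ j ≤ b` the `j`-th power of the ideal generated by `W` has
Castelnuovo-Mumford regularity `⌊(b+j+1)/2⌋ a - ⌊(b-j+1)/2⌋`. -/
theorem result (a b : ℕ) (ha : 1 ≤ a) (hb : 1 ≤ b) :
    ∃ W : Submodule ℂ (MvPolynomial (Fin (b + 1)) ℂ), IsSymCopy a b W ∧
      (∀ W' : Submodule ℂ (MvPolynomial (Fin (b + 1)) ℂ), IsSymCopy a b W' → W' = W) ∧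
      ∀ j : ℕ, 1 ≤ j → j ≤ b →
        IsRegularity ((Ideal.span (W : Set (MvPolynomial (Fin (b + 1)) ℂ))) ^ j)
          (((b : ℤ) + j + 1) / 2 * a - ((b : ℤ) - j + 1) / 2) := by
  refine ⟨W0 a b, isSymCopy_W0 a b, isSymCopy_unique a b, ?_⟩
  intro j hj1 hj2
  rw [span_W0_pow]
  set J := Ideal.span (Set.range fun u : Fin j → ℂ => ∏ c, ff b (u c) ^ a) with hJ
  obtain ⟨p, hp⟩ : ∃ p, p = (b - j + 1) / 2 := ⟨_, rfl⟩
  have hja : 1 ≤ j * a := Nat.mul_pos hj1 ha
  have h := isRegularity_of (N := b + 1) (by omega) J (j * a + (a - 1) * p - 1) ?_ ?_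
  · have hval : (((j * a + (a - 1) * p - 1 : ℕ) : ℤ) + 1) =
        ((b : ℤ) + j + 1) / 2 * a - ((b : ℤ) - j + 1) / 2 := by
      have h1 : ((b : ℤ) - j + 1) / 2 = p := by omega
      have h2 : ((b : ℤ) + j + 1) / 2 = j + p := by omega
      rw [h1, h2]
      obtain ⟨a', rfl⟩ : ∃ a', a = a' + 1 := ⟨a - 1, by omega⟩
      rw [Nat.add_sub_cancel, Nat.cast_sub (by omega)]
      push_cast
      ring
    rw [← hval]
    exact h
  · intro k hk q hq
    apply mem_of_deg ha hj1 _ J _ hq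
    · have h1 : (b - (j - 1)) / 2 = p := by rw [hp]; congr 1; omega
      rw [h1]
      have h2 : (j - 1) * a + (a - 1) * (p + 1) + 1 = j * a + (a - 1) * p := by
        obtain ⟨a', rfl⟩ : ∃ a', a = a' + 1 := ⟨a - 1, by omega⟩
        obtain ⟨j', rfl⟩ : ∃ j', j = j' + 1 := ⟨j - 1, by omega⟩
        simp only [Nat.add_sub_cancel]
        ring
      omega
    · intro u
      exact Ideal.subset_span ⟨u, rfl⟩
  · exact exists_not_mem (p := p) ha hj1 (by omega) (by omega)

end Pool.Agent.Results.MP_13ae32_ag.RegPowers
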